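import Pool.Agent.TH966.AK.HexEnd

/-!
Self-avoiding walks on the honeycomb lattice (brick-wall coordinates, same description as in the
frozen statement): `D_{n+2} / D_n = 1 + O(log n / √n)` for the mean-square displacement `D_n`, and
the laws of the end points of the `n`-step and of the `(n+2)`-step walk are at total variation
distance `O(log n / √n)`.
-/

set_option autoImplicit false

namespace Pool.Agent.Results.MP_b440f6_pr.DisplacementRatio

/-- Adjacency in the honeycomb lattice (brick-wall model), as in the frozen statement. -/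
def Nbr (p q : ℤ × ℤ) : Prop :=
  (p.2 = q.2 ∧ (p.1 - q.1 = 1 ∨ q.1 - p.1 = 1)) ∨
    (p.1 = q.1 ∧ ((q.2 = p.2 + 1 ∧ Even (p.1 + p.2)) ∨ (p.2 = q.2 + 1 ∧ Even (q.1 + q.2))))

/-- The set of `n`-step self-avoiding walks from the origin. -/
def walks (n : ℕ) : Set (Fin (n + 1) → ℤ × ℤ) :=
  {ω | ω 0 = (0, 0) ∧ Function.Injective ω ∧ ∀ i : Fin n, Nbr (ω i.castSucc) (ω i.succ)}

/-- The vertex of the regular honeycomb lattice with edge length `1` in the plane, the origin at `0`,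
which has the brick-wall coordinates `p`. -/
noncomputable def pos (p : ℤ × ℤ) : ℂ :=
  ⟨√3 / 2 * p.1, (3 * p.2 - ((p.1 + p.2) % 2 : ℤ)) / 2⟩

/-- The mean-square displacement of the `n`-step self-avoiding walk. -/
noncomputable def D (n : ℕ) : ℝ :=
  (∑ᶠ ω ∈ walks n, ‖pos (ω (Fin.last n))‖ ^ 2) / ((walks n).ncard : ℝ)

/-- The probability that the end point of the `n`-step self-avoiding walk is in `S`. -/
noncomputable def prob (n : ℕ) (S : Set (ℤ × ℤ)) : ℝ :=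
  ({ω ∈ walks n | ω (Fin.last n) ∈ S}.ncard : ℝ) / ((walks n).ncard : ℝ)

theorem nbr_iff (p q : ℤ × ℤ) : Nbr p q ↔ TH966.AK.Hex.A p q := by
  rw [TH966.AK.Hex.A_iff]
  unfold Nbr
  rw [Int.even_iff, Int.even_iff]
  omega

theorem walks_eq (n : ℕ) : walks n = TH966.AK.wks TH966.AK.Hex.A n := by
  ext f
  unfold walks TH966.AK.wks
  simp only [Set.mem_ofPred_eq]
  constructor
  · rintro ⟨h1, h2, h3⟩
    exact ⟨h1, h2, fun i => (nbr_iff _ _).1 (h3 i)⟩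
  · rintro ⟨h1, h2, h3⟩
    exact ⟨h1, h2, fun i => (nbr_iff _ _).2 (h3 i)⟩

theorem sq_pos (p : ℤ × ℤ) : ‖pos p‖ ^ 2 = (TH966.AK.q4 p : ℝ) / 4 := by
  rw [Complex.sq_norm]
  unfold pos TH966.AK.q4
  rw [Complex.normSq_mk]
  have h : √3 * √3 = (3 : ℝ) := Real.mul_self_sqrt (by norm_num)
  push_cast
  have e : √3 / 2 * (p.1 : ℝ) * (√3 / 2 * (p.1 : ℝ)) = √3 * √3 * (p.1 : ℝ) ^ 2 / 4 := by ring
  rw [e, h]
  ring

/-- Neighbours have distance `1` (a check of the coordinates, not used below). -/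
theorem dist_nbr {p q : ℤ × ℤ} (h : Nbr p q) : ‖pos q - pos p‖ ^ 2 = 1 := by
  have h3 : √3 * √3 = (3 : ℝ) := Real.mul_self_sqrt (by norm_num)
  obtain ⟨a, ha⟩ : ∃ a : ℤ, a = (p.1 + p.2) % 2 := ⟨_, rfl⟩
  obtain ⟨b, hb⟩ : ∃ b : ℤ, b = (q.1 + q.2) % 2 := ⟨_, rfl⟩
  have hcase : (q.1 - p.1 = 1 ∨ q.1 - p.1 = -1) ∧ q.2 = p.2 ∧ (a - b = 1 ∨ a - b = -1) ∨
      q.1 = p.1 ∧ ((q.2 = p.2 + 1 ∧ a = 0 ∧ b = 1) ∨ (q.2 = p.2 - 1 ∧ a = 1 ∧ b = 0)) := by
    unfold Nbr at h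
    rw [Int.even_iff, Int.even_iff] at h
    omega
  have e : ‖pos q - pos p‖ ^ 2 = (3 * ((q.1 : ℝ) - p.1) ^ 2 +
      (3 * ((q.2 : ℝ) - p.2) + ((a : ℝ) - b)) ^ 2) / 4 := by
    rw [Complex.sq_norm]
    unfold pos
    rw [← ha, ← hb, Complex.normSq_apply]
    simp only [Complex.sub_re, Complex.sub_im]
    have e1 : (√3 / 2 * (q.1 : ℝ) - √3 / 2 * (p.1 : ℝ)) * (√3 / 2 * (q.1 : ℝ) - √3 / 2 * (p.1 : ℝ))
        = √3 * √3 * ((q.1 : ℝ) - p.1) ^ 2 / 4 := by ring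
    rw [e1, h3]
    ring
  rw [e]
  rcases hcase with ⟨h1, h2, h4⟩ | ⟨h1, ⟨h2, h4, h5⟩ | ⟨h2, h4, h5⟩⟩
  · rcases h1 with h1 | h1 <;> rcases h4 with h4 | h4 <;>
    · have k1 : (q.1 : ℝ) - p.1 = ((q.1 - p.1 : ℤ) : ℝ) := by push_cast; ring
      have k2 : (a : ℝ) - b = ((a - b : ℤ) : ℝ) := by push_cast; ring
      rw [k1, k2, h1, h4, h2]
      push_cast
      ring
  · rw [h1, h2, h4, h5]
    push_cast
    ring
  · rw [h1, h2, h4, h5]
    push_cast
    ring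

theorem D_eq (n : ℕ) : D n = TH966.AK.D4 n / 4 := by
  unfold D
  rw [TH966.AK.D4_eq, walks_eq]
  have h : ∑ᶠ ω ∈ TH966.AK.wks TH966.AK.Hex.A n, ‖pos (ω (Fin.last n))‖ ^ 2 =
      (1 / 4 : ℝ) * ∑ᶠ ω ∈ TH966.AK.wks TH966.AK.Hex.A n,
        (TH966.AK.q4 (ω (Fin.last n)) : ℝ) := by
    have e1 := TH966.AK.sum_wks TH966.AK.Hex.rule (fun p => ‖pos p‖ ^ 2) n
    have e2 := TH966.AK.sum_wks TH966.AK.Hex.rule (fun p => (TH966.AK.q4 p : ℝ)) n
    rw [e1, e2]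
    unfold TH966.AK.WF
    rw [Finset.mul_sum]
    refine Finset.sum_congr rfl fun w _ => ?_
    change ‖pos (TH966.AK.lst w)‖ ^ 2 = 1 / 4 * (TH966.AK.q4 (TH966.AK.lst w) : ℝ)
    rw [sq_pos]
    ring
  rw [h]
  ring

/-- **Theorem.** On the honeycomb lattice there is a constant `K` such that for all `n ≥ 2` the
mean-square displacement `D n` is positive, `|D (n+2) / D n - 1| ≤ K log n / √n`, and for every set
`S` of vertices the probabilities that the end points of the `(n+2)`-step and of the `n`-step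
self-avoiding walk are in `S` differ by at most `K log n / √n`. -/
theorem result : ∃ K : ℝ, ∀ n : ℕ, 2 ≤ n → 0 < D n ∧
    |D (n + 2) / D n - 1| ≤ K * (Real.log n / √(n : ℝ)) ∧
    ∀ S : Set (ℤ × ℤ), |prob (n + 2) S - prob n S| ≤ K * (Real.log n / √(n : ℝ)) := by
  obtain ⟨K, hK⟩ := TH966.AK.hex_end
  refine ⟨K, fun n hn => ?_⟩
  obtain ⟨h1, h2, h3⟩ := hK n hn
  refine ⟨by rw [D_eq]; linarith, ?_, fun S => ?_⟩
  · rw [D_eq, D_eq, div_div_div_cancel_right₀ (by norm_num)]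
    exact h2
  · have e : ∀ m, prob m S = TH966.AK.pr m S := by
      intro m
      unfold prob
      rw [TH966.AK.pr_eq, walks_eq]
    rw [e, e]
    exact h3 S

end Pool.Agent.Results.MP_b440f6_pr.DisplacementRatio
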