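import Pool.Agent.TH232.Hex.Low
import Pool.Agent.H978R2.Hex.Conn

set_option autoImplicit false

/-!
Self-avoiding walks on the honeycomb lattice (brick-wall coordinates, same description as in the
frozen statement): with `μ = √(2+√2)`, `c n ≥ 0.4 μ^n n^{1/75}` for every `n`.
-/

namespace Pool.Agent.Results.MP_b440f6_pr.HoneycombLowerExponent

open Filter Topology

/-- Adjacency in the honeycomb lattice (brick-wall model), as in the frozen statement. -/
def Nbr (p q : ℤ × ℤ) : Prop :=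
  (p.2 = q.2 ∧ (p.1 - q.1 = 1 ∨ q.1 - p.1 = 1)) ∨
    (p.1 = q.1 ∧ ((q.2 = p.2 + 1 ∧ Even (p.1 + p.2)) ∨ (p.2 = q.2 + 1 ∧ Even (q.1 + q.2))))

/-- The set of `n`-step self-avoiding walks from the origin. -/
def walks (n : ℕ) : Set (Fin (n + 1) → ℤ × ℤ) :=
  {ω | ω 0 = (0, 0) ∧ Function.Injective ω ∧ ∀ i : Fin n, Nbr (ω i.castSucc) (ω i.succ)}

/-- The number of `n`-step self-avoiding walks from the origin. -/
noncomputable def c (n : ℕ) : ℕ := (walks n).ncard

/-- the adjacency relation of the library -/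
def Adj0 (p q : ℤ × ℤ) : Prop :=
  q - p = (1, 0) ∨ q - p = (-1, 0) ∨
    (q - p = (0, 1) ∧ Even (p.1 + p.2)) ∨ (q - p = (0, -1) ∧ Even (q.1 + q.2))

theorem nbr_iff (p q : ℤ × ℤ) : Nbr p q ↔ Adj0 p q := by
  obtain ⟨a, b⟩ := p
  obtain ⟨x, y⟩ := q
  unfold Nbr Adj0
  simp only [Prod.mk_sub_mk, Prod.mk.injEq]
  constructor
  · rintro (⟨h1, h2 | h2⟩ | ⟨h1, ⟨h2, h3⟩ | ⟨h2, h3⟩⟩)
    · right; left; omega
    · left; omega
    · right; right; left; exact ⟨by omega, h3⟩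
    · right; right; right; exact ⟨by omega, h3⟩
  · rintro (h | h | ⟨h, h'⟩ | ⟨h, h'⟩)
    · left; omega
    · left; omega
    · right; exact ⟨by omega, Or.inl ⟨by omega, h'⟩⟩
    · right; exact ⟨by omega, Or.inr ⟨by omega, h'⟩⟩

theorem walks_eq (n : ℕ) : walks n = {f : Fin (n + 1) → ℤ × ℤ | f 0 = 0 ∧ Function.Injective f ∧
    ∀ i : Fin n, Adj0 (f i.castSucc) (f i.succ)} := by
  ext f
  unfold walks
  simp only [Set.mem_ofPred_eq]
  constructor
  · rintro ⟨h1, h2, h3⟩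
    exact ⟨h1, h2, fun i => (nbr_iff _ _).1 (h3 i)⟩
  · rintro ⟨h1, h2, h3⟩
    exact ⟨h1, h2, fun i => (nbr_iff _ _).2 (h3 i)⟩

/-- **Theorem.** On the honeycomb lattice, with `μ = √(2+√2)`, the number `c n` of `n`-step
self-avoiding walks satisfies `c n ≥ (2/5) n^{1/75} μ^n` for all `n`; hence, if
`log (c n / μ^n) / log n` has a limit along any sequence of lengths tending to infinity,
this limit is at least `1/75`. -/
theorem result :
    (∀ n : ℕ, 2 / 5 * (Real.sqrt (2 + Real.sqrt 2) ^ n * (n : ℝ) ^ ((1 : ℝ) / 75)) ≤ (c n : ℝ)) ∧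
    ∀ (s : ℕ → ℕ) (γ : ℝ), Tendsto s atTop atTop →
      Tendsto (fun k : ℕ => Real.log ((c (s k) : ℝ) / Real.sqrt (2 + Real.sqrt 2) ^ (s k)) /
        Real.log (s k)) atTop (𝓝 γ) → 1 / 75 ≤ γ := by
  have hc : ∀ n, c n = Set.ncard (H978R2.Hex.saws n) := by
    intro n
    unfold c
    rw [walks_eq]
    rfl
  have hlow : ∀ n : ℕ, 2 / 5 * (Real.sqrt (2 + Real.sqrt 2) ^ n * (n : ℝ) ^ ((1 : ℝ) / 75)) ≤
      (c n : ℝ) := by
    intro n
    rw [hc]
    exact Pool.Agent.TH232.Hex.lower75 n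
  refine ⟨hlow, fun s γ hs hγ => ?_⟩
  have hmu : 0 < Real.sqrt (2 + Real.sqrt 2) := by positivity
  have hlim : Tendsto (fun k : ℕ => 1 / 75 + Real.log (2 / 5) / Real.log (s k)) atTop
      (𝓝 (1 / 75 + 0)) := by
    refine Tendsto.const_add _ ?_
    refine Tendsto.div_atTop tendsto_const_nhds ?_
    exact (Real.tendsto_log_atTop.comp tendsto_natCast_atTop_atTop).comp hs
  rw [add_zero] at hlim
  refine le_of_tendsto_of_tendsto hlim hγ ?_
  filter_upwards [hs.eventually_ge_atTop 2] with k hk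
  have hn0 : (0 : ℝ) < s k := by exact_mod_cast (by omega : 0 < s k)
  have hlogn : 0 < Real.log (s k) := Real.log_pos (by exact_mod_cast (by omega : 1 < s k))
  have h2 : 2 / 5 * (s k : ℝ) ^ ((1 : ℝ) / 75) ≤ (c (s k) : ℝ) / Real.sqrt (2 + Real.sqrt 2) ^ s k := by
    rw [le_div_iff₀ (pow_pos hmu _)]
    have := hlow (s k)
    linarith
  have hr := Real.rpow_pos_of_pos hn0 ((1 : ℝ) / 75)
  have h3 := Real.log_le_log (mul_pos (by norm_num) hr) h2
  rw [Real.log_mul (by norm_num) hr.ne', Real.log_rpow hn0] at h3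
  rw [le_div_iff₀ hlogn, add_mul, div_mul_cancel₀ _ hlogn.ne']
  linarith

end Pool.Agent.Results.MP_b440f6_pr.HoneycombLowerExponent
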