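import Pool.Agent.TH966.AK.HexFin

/-!
Self-avoiding walks on the honeycomb lattice (brick-wall coordinates, same description as in the
frozen statement): `c (n+2) / c n = 2 + √2 + O(log n / √n)`.
-/

set_option autoImplicit false

namespace Pool.Agent.Results.MP_b440f6_pr.RatioRate

/-- Adjacency in the honeycomb lattice (brick-wall model), as in the frozen statement. -/
def Nbr (p q : ℤ × ℤ) : Prop :=
  (p.2 = q.2 ∧ (p.1 - q.1 = 1 ∨ q.1 - p.1 = 1)) ∨
    (p.1 = q.1 ∧ ((q.2 = p.2 + 1 ∧ Even (p.1 + p.2)) ∨ (p.2 = q.2 + 1 ∧ Even (q.1 + q.2))))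

/-- The set of `n`-step self-avoiding walks from the origin. -/
def walks (n : ℕ) : Set (Fin (n + 1) → ℤ × ℤ) :=
  {ω | ω 0 = (0, 0) ∧ Function.Injective ω ∧ ∀ i : Fin n, Nbr (ω i.castSucc) (ω i.succ)}

/-- The number of `n`-step self-avoiding walks from the origin. -/
noncomputable def c (n : ℕ) : ℕ := (walks n).ncard

theorem nbr_iff (p q : ℤ × ℤ) : Nbr p q ↔ TH966.AK.AdjH p q := by
  obtain ⟨a, b⟩ := p
  obtain ⟨x, y⟩ := q
  unfold Nbr TH966.AK.AdjH
  simp only [Prod.mk_sub_mk, Prod.mk.injEq]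
  constructor
  · rintro (⟨h1, h2 | h2⟩ | ⟨h1, ⟨h2, h3⟩ | ⟨h2, h3⟩⟩)
    · right; left; omega
    · left; omega
    · right; right; left; exact ⟨by omega, h3⟩
    · right; right; right; exact ⟨by omega, h3⟩
  · rintro (h | h | ⟨h, h'⟩ | ⟨h, h'⟩)
    · left; omega
    · left; omega
    · right; exact ⟨by omega, Or.inl ⟨by omega, h'⟩⟩
    · right; exact ⟨by omega, Or.inr ⟨by omega, h'⟩⟩

theorem walks_eq (n : ℕ) : walks n = {f : Fin (n + 1) → ℤ × ℤ | f 0 = 0 ∧ Function.Injective f ∧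
    ∀ i : Fin n, TH966.AK.AdjH (f i.castSucc) (f i.succ)} := by
  ext f
  unfold walks
  simp only [Set.mem_ofPred_eq]
  constructor
  · rintro ⟨h1, h2, h3⟩
    exact ⟨h1, h2, fun i => (nbr_iff _ _).1 (h3 i)⟩
  · rintro ⟨h1, h2, h3⟩
    exact ⟨h1, h2, fun i => (nbr_iff _ _).2 (h3 i)⟩

/-- **Theorem.** For the number `c n` of `n`-step self-avoiding walks on the honeycomb lattice there
is a constant `K` with `|c (n+2) / c n - μ²| ≤ K log n / √n` for all `n ≥ 2`, where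
`μ² = 2 + √2`. -/
theorem result : ∃ K : ℝ, ∀ n : ℕ, 2 ≤ n →
    |(c (n + 2) : ℝ) / (c n : ℝ) - (2 + Real.sqrt 2)| ≤ K * (Real.log n / √(n : ℝ)) :=
  TH966.AK.hex_ratio c (fun n => by unfold c; rw [walks_eq])

end Pool.Agent.Results.MP_b440f6_pr.RatioRate
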